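import Pool.Agent.Helper469.Chain.P_main

/-!
A chainable closure of a branch of an unstable manifold with a one-sided homoclinic tangency.

The counterexample is an explicit `C^∞` diffeomorphism `f` of the plane,
`f = shear ∘ twist ∘ (expansion × contraction)`, a Smale horseshoe with a sink. On a strip `S` it is
`(x,y) ↦ (α(x), y/10 - 9/10)` on the left part and `(x,y) ↦ (3 - α(x), 9/10 - y/10)` on the right
part, the middle part is bent through a cap `{x ≥ 1}` which is then mapped to the basin `{x < 0}` of
a sink. The fixed saddle is `p = (0,-1)`; `{x = 0}` and `{x = 1}` (inside the trapping region `D`)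
lie in `W^s(p)`. The shear has a dip which is tuned so that exactly one point of the bent strip, on a
boundary strand (which belongs to `W^u_+(p)`), touches the line `{x = 1}` from the right; its image
is an isolated one-sided tangency of `W^u_+(p)` with `W^s(p) ⊇ {0} × [-5/2,5/2]`.

Chainability: for every `ε` there are `k, m` and a continuous `h_k : D → ℝ` such that `f^(k+m)` maps
every fibre of `h_k` to a set of diameter `< ε`. `h_k` is the first coordinate, except on the parts
of `D` that enter the bent part after less than `k` steps, where its fibres are pulled back from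
vertical segments in the cap (a folded function). Hence `K = cl W^u_+(p)`, which satisfies
`f(K) = K ⊆ D`, has `ε`-maps to the line.
-/

open Set Filter Topology
open scoped ContDiff

namespace Pool.Agent.Results.MP_fe4422_gt.TangentChainable

open TanChain

/-- There are a `C^∞` diffeomorphism `f` of the plane, a hyperbolic saddle fixed point `p`, (smooth,
injectively immersed, dynamically invariant) parametrisations `γ` of the unstable and `σ` of the
stable manifold of `p`, and `t₀ > 0`, `s₀` with `γ t₀ = σ s₀ =: q` such that the intersection of the
branch `W^u_+(p) = γ (0,∞)` with `W^s(p)` at `q` is not topologically transverse: in fact near `q`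
the stable manifold is a vertical segment and all other points of the arc of `W^u_+(p)` lie strictly
to the left of it; nevertheless the closure of `W^u_+(p)` is a chainable continuum. -/
theorem result : ∃ (f : Pl ≃ₜ Pl) (p : Pl) (γ σ : ℝ → Pl) (t₀ s₀ : ℝ),
    ContDiff ℝ ∞ f ∧ ContDiff ℝ ∞ f.symm ∧ IsSaddle f p ∧
    IsUnstableParam f p γ ∧ IsUnstableParam f.symm p σ ∧
    0 < t₀ ∧ γ t₀ = σ s₀ ∧ ¬ TopTransverse γ σ t₀ s₀ ∧
    (∃ ε > 0, (∀ t, 0 < |t - t₀| → |t - t₀| < ε → (γ t).1 < (γ t₀).1) ∧
      ∀ s, |s - s₀| < ε → σ s = ((γ t₀).1, (γ t₀).2 + (s - s₀))) ∧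
    IsCompact (closure (γ '' Ioi 0)) ∧ IsConnected (closure (γ '' Ioi 0)) ∧
    Chainable (closure (γ '' Ioi 0)) :=
  TanChain.main

end Pool.Agent.Results.MP_fe4422_gt.TangentChainable
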